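import Pool.Agent.Q224.ED.Time

/-!
# MP_613513, Q1: edge deletion to bounded component size, parameterized by the solution size

The problem is W[1]-hard for the number `k` of deleted edges (the bound `h` on the size of the
components being part of the input).
-/

set_option autoImplicit false

namespace Pool.Agent.Results.MP_613513_lc.SolutionSizeHard

open Pool.Agent.H633R2

/-- `T_{h+1}`-Free Edge Deletion. An instance `(M, k, h)` consists of the adjacency matrix `M` of a
graph `G` and two numbers; it is a yes-instance iff `k` and `h` are positive and there is a set `E'`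
of at most `k` edges of `G` such that every connected component of `G` minus `E'` has at most `h`
vertices. -/
def TFreeEdgeDeletion (x : List (List Bool) × ℕ × ℕ) : Prop :=
  1 ≤ x.2.1 ∧ 1 ≤ x.2.2 ∧ ∃ E' : Finset (Sym2 (Fin x.1.length)),
    (E' : Set (Sym2 (Fin x.1.length))) ⊆ (graphOf x.1).edgeSet ∧ E'.card ≤ x.2.1 ∧
      ∀ c : ((graphOf x.1).deleteEdges E').ConnectedComponent, c.supp.ncard ≤ x.2.2

/-- The parameter `k`. -/
def paramK (x : List (List Bool) × ℕ × ℕ) : ℕ := x.2.1

/-- `T_{h+1}`-Free Edge Deletion parameterized by the solution size `k` is W[1]-hard. -/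
theorem result : W1Hard paramK TFreeEdgeDeletion := Pool.Agent.NPC.Q224ED.w1Hard

end Pool.Agent.Results.MP_613513_lc.SolutionSizeHard
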